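import Pool.Agent.Lib_helper38.G5.KPOL
import Pool.Agent.Lib_helper44.G5.Defs

/-! block WTOS -/

namespace Pool.Agent.G5

open Complex MeasureTheory Filter Topology

open Pool.Agent.G4 (par Ix ev pairs RSB IsKer D hatw smo)

variable {m : ℕ}

/-- the number of shifts -/
noncomputable def WTOS_r (μ : ℂ) : ℕ := ⌊(μ.re + 3 / 2) / 2⌋₊

theorem WTOS_r_lt (μ : ℂ) : μ.re - 2 * WTOS_r μ < 1 / 2 := by
  have h := Nat.lt_floor_add_one ((μ.re + 3 / 2) / 2)
  unfold WTOS_r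
  linarith

theorem WTOS_r_ge (μ : ℂ) {i : ℕ} (hi : i < WTOS_r μ) : 1 / 2 ≤ μ.re - 2 * i := by
  have h1 : ((i + 1 : ℕ) : ℝ) ≤ (μ.re + 3 / 2) / 2 :=
    (Nat.le_floor_iff' (Nat.succ_ne_zero i)).1 hi
  push_cast at h1
  linarith

/-- the index type of the linear factors -/
abbrev WTOS_J (μ : Fin m → ℂ) : Type := Σ j : Fin m, Fin (WTOS_r (μ j))

/-- the zeros -/
noncomputable def WTOS_B (μ : Fin m → ℂ) (x : WTOS_J μ) : ℂ := μ x.1 - 2 * ((x.2 : ℕ) : ℂ)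

/-- the multiplier -/
noncomputable def WTOS_R (μ : Fin m → ℂ) (s : ℂ) : ℂ :=
  ∏ x : WTOS_J μ, ((s - WTOS_B μ x) * (1 - starRingEnd ℂ (WTOS_B μ x) - s))

/-- the new Gamma factor -/
noncomputable def WTOS_g (μ : Fin m → ℂ) (s : ℂ) : ℂ :=
  (∏ j, (2 * Real.pi : ℂ) ^ WTOS_r (μ j)) *
    ((∏ x : WTOS_J μ, (1 - starRingEnd ℂ (WTOS_B μ x) - s)) *
      ∏ j, Gammaℝ (s - (μ j - 2 * (WTOS_r (μ j) : ℂ))))

theorem WTOS_key (μ : Fin m → ℂ) {s : ℂ} (hs : 1 < s.re) :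
    WTOS_g μ s * ∏ j, (Gammaℝ (s - μ j))⁻¹ = WTOS_R μ s := by
  have h1 : ∀ j, (2 * Real.pi : ℂ) ^ WTOS_r (μ j) * Gammaℝ (s - (μ j - 2 * (WTOS_r (μ j) : ℂ))) *
      (Gammaℝ (s - μ j))⁻¹ = ∏ i : Fin (WTOS_r (μ j)), (s - (μ j - 2 * ((i : ℕ) : ℂ))) := by
    intro j
    have h2 := gammaR_shift_pr (s - μ j) (WTOS_r (μ j)) (by
      have := WTOS_r_lt (μ j)
      rw [Complex.sub_re]
      linarith)
    have h3 : s - (μ j - 2 * (WTOS_r (μ j) : ℂ)) = s - μ j + 2 * (WTOS_r (μ j) : ℂ) := by ring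
    rw [h3, h2, Finset.prod_range]
    refine Finset.prod_congr rfl fun i _ => ?_
    ring
  have h4 : ∏ x : WTOS_J μ, (s - WTOS_B μ x) =
      ∏ j, ((2 * Real.pi : ℂ) ^ WTOS_r (μ j) * Gammaℝ (s - (μ j - 2 * (WTOS_r (μ j) : ℂ))) *
      (Gammaℝ (s - μ j))⁻¹) := by
    rw [Fintype.prod_sigma]
    refine Finset.prod_congr rfl fun j _ => ?_
    rw [h1 j]
    rfl
  rw [WTOS_R, Finset.prod_mul_distrib, h4, Finset.prod_mul_distrib, Finset.prod_mul_distrib, WTOS_g]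
  ring

theorem WTOS_R_symm (μ : Fin m → ℂ) (s : ℂ) :
    WTOS_R μ s = starRingEnd ℂ (WTOS_R μ (1 - starRingEnd ℂ s)) := by
  rw [WTOS_R, WTOS_R, map_prod]
  refine Finset.prod_congr rfl fun x _ => ?_
  simp only [map_mul, map_sub, map_one, Complex.conj_conj]
  ring

theorem WTOS_R_diff (μ : Fin m → ℂ) : Differentiable ℂ (WTOS_R μ) := by
  unfold WTOS_R
  apply Differentiable.fun_finsetProd
  intro x _
  fun_prop

theorem WTOS_R_growth (μ : Fin m → ℂ) : ∃ (C : ℝ) (n : ℕ), 0 ≤ C ∧ ∀ s : ℂ,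
    ‖WTOS_R μ s‖ ≤ C * (1 + ‖s‖) ^ n := by
  refine ⟨∏ x : WTOS_J μ, (1 + ‖WTOS_B μ x‖) ^ 2, 2 * Fintype.card (WTOS_J μ), by positivity,
    fun s => ?_⟩
  have h1 : (∏ x : WTOS_J μ, (1 + ‖WTOS_B μ x‖) ^ 2) * (1 + ‖s‖) ^ (2 * Fintype.card (WTOS_J μ)) =
      ∏ x : WTOS_J μ, ((1 + ‖WTOS_B μ x‖) ^ 2 * (1 + ‖s‖) ^ 2) := by
    rw [Finset.prod_mul_distrib, Finset.prod_const, Finset.card_univ, ← pow_mul]
  rw [h1, WTOS_R, norm_prod]
  refine Finset.prod_le_prod (fun x _ => norm_nonneg _) fun x _ => ?_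
  rw [norm_mul]
  have hb := norm_nonneg (WTOS_B μ x)
  have hs := norm_nonneg s
  have h2 : ‖s - WTOS_B μ x‖ ≤ (1 + ‖WTOS_B μ x‖) * (1 + ‖s‖) := by
    have := norm_sub_le s (WTOS_B μ x)
    nlinarith [mul_nonneg hb hs]
  have h3 : ‖1 - starRingEnd ℂ (WTOS_B μ x) - s‖ ≤ (1 + ‖WTOS_B μ x‖) * (1 + ‖s‖) := by
    have h4 := norm_sub_le (1 - starRingEnd ℂ (WTOS_B μ x)) s
    have h5 := norm_sub_le (1 : ℂ) (starRingEnd ℂ (WTOS_B μ x))
    rw [Complex.norm_conj, norm_one] at h5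
    nlinarith [mul_nonneg hb hs]
  calc ‖s - WTOS_B μ x‖ * ‖1 - starRingEnd ℂ (WTOS_B μ x) - s‖
      ≤ ((1 + ‖WTOS_B μ x‖) * (1 + ‖s‖)) * ((1 + ‖WTOS_B μ x‖) * (1 + ‖s‖)) := by gcongr
    _ = _ := by ring

theorem WTOS_R_order (μ : Fin m → ℂ) (t : ℝ) : analyticOrderAt (WTOS_R μ) (1 / 2 + t * I) ≠ ⊤ ∧
    Even (analyticOrderNatAt (WTOS_R μ) (1 / 2 + t * I)) := by
  set s0 : ℂ := 1 / 2 + t * I with hs0
  have hR : WTOS_R μ = ∏ x : WTOS_J μ, fun s : ℂ =>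
      ((s - WTOS_B μ x) * (1 - starRingEnd ℂ (WTOS_B μ x) - s)) := by
    funext s
    rw [WTOS_R, Finset.prod_apply]
  have hcj : 1 - starRingEnd ℂ s0 = s0 := by
    rw [hs0]
    simp only [map_add, map_div₀, map_one, map_ofNat, map_mul, Complex.conj_ofReal, Complex.conj_I]
    ring
  have key : AnalyticAt ℂ (WTOS_R μ) s0 ∧ analyticOrderAt (WTOS_R μ) s0 ≠ ⊤ ∧
      Even (analyticOrderNatAt (WTOS_R μ) s0) := by
    rw [hR]
    refine Finset.prod_induction _ (fun f : ℂ → ℂ => AnalyticAt ℂ f s0 ∧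
      analyticOrderAt f s0 ≠ ⊤ ∧ Even (analyticOrderNatAt f s0)) ?_ ?_ ?_
    · rintro f g ⟨hf, hf1, hf2⟩ ⟨hg, hg1, hg2⟩
      refine ⟨hf.mul hg, ?_, ?_⟩
      · rw [analyticOrderAt_mul hf hg]
        intro h
        rcases WithTop.add_eq_top.1 h with h | h
        · exact hf1 h
        · exact hg1 h
      · rw [analyticOrderNatAt_mul hf hg hf1 hg1]
        exact hf2.add hg2
    · have h1 : AnalyticAt ℂ (1 : ℂ → ℂ) s0 := analyticAt_const
      have h2 : analyticOrderAt (1 : ℂ → ℂ) s0 = 0 :=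
        h1.analyticOrderAt_eq_zero.2 (by simp)
      refine ⟨h1, by rw [h2]; simp, ?_⟩
      rw [analyticOrderNatAt, h2]
      simp
    · intro x _
      set b : ℂ := WTOS_B μ x with hb
      have h1 : AnalyticAt ℂ (fun s : ℂ => (s - b) * (1 - starRingEnd ℂ b - s)) s0 := by
        fun_prop
      by_cases hbs : b = s0
      · have h2 : analyticOrderAt (fun s : ℂ => (s - b) * (1 - starRingEnd ℂ b - s)) s0 =
            ((2 : ℕ) : ℕ∞) := by
          rw [h1.analyticOrderAt_eq_natCast]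
          refine ⟨fun _ => -1, analyticAt_const, by simp, Eventually.of_forall fun z => ?_⟩
          rw [hbs, hcj, smul_eq_mul]
          ring
        refine ⟨h1, by rw [h2]; exact ENat.natCast_ne_top 2, ?_⟩
        rw [analyticOrderNatAt, h2]
        exact ⟨1, rfl⟩
      · have h2 : analyticOrderAt (fun s : ℂ => (s - b) * (1 - starRingEnd ℂ b - s)) s0 = 0 := by
          rw [h1.analyticOrderAt_eq_zero]
          refine mul_ne_zero (sub_ne_zero.2 (Ne.symm hbs)) ?_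
          intro h3
          apply hbs
          have h4 : starRingEnd ℂ b = 1 - s0 := by linear_combination -h3
          have h5 : b = starRingEnd ℂ (1 - s0) := by rw [← h4, Complex.conj_conj]
          rw [h5, map_sub, map_one, hcj]
        refine ⟨h1, by rw [h2]; simp, ?_⟩
        rw [analyticOrderNatAt, h2]
        simp
  exact key.2

theorem WTOS_G_cont {w : ℂ} (hw : 0 < w.re) : ContinuousAt Gammaℝ w := by
  have h1 := (differentiable_Gammaℝ_inv.continuous.continuousAt (x := w)).inv₀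
    (inv_ne_zero (Gammaℝ_ne_zero_of_re_pos hw))
  have h2 : (fun s : ℂ => (Gammaℝ s)⁻¹)⁻¹ = Gammaℝ := by
    funext s
    simp
  rwa [h2] at h1

theorem WTOS_g_cont (μ : Fin m → ℂ) {s : ℂ} (hs : 1 / 2 ≤ s.re) : ContinuousAt (WTOS_g μ) s := by
  unfold WTOS_g
  apply ContinuousAt.mul continuousAt_const
  apply ContinuousAt.mul
  · apply Continuous.continuousAt
    fun_prop
  · refine tendsto_finsetProd _ fun j _ => ?_
    refine ContinuousAt.comp (g := Gammaℝ) (WTOS_G_cont ?_) (by fun_prop)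
    have := WTOS_r_lt (μ j)
    have h2 : (s - (μ j - 2 * (WTOS_r (μ j) : ℂ))).re = s.re - ((μ j).re - 2 * WTOS_r (μ j)) := by
      simp
    rw [h2]
    linarith

theorem WTOS_g_ne (μ : Fin m → ℂ) {η t : ℝ} (hη : 0 ≤ η) (ht : ∀ j, t ≠ (μ j).im) :
    WTOS_g μ (1 / 2 + η + t * I) ≠ 0 := by
  have hre : ((1 / 2 + η + t * I : ℂ)).re = 1 / 2 + η := by simp
  have him : ((1 / 2 + η + t * I : ℂ)).im = t := by simp
  unfold WTOS_g
  refine mul_ne_zero ?_ (mul_ne_zero ?_ ?_)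
  · refine Finset.prod_ne_zero_iff.2 fun j _ => pow_ne_zero _ ?_
    have : (Real.pi : ℂ) ≠ 0 := by exact_mod_cast Real.pi_ne_zero
    simpa using this
  · refine Finset.prod_ne_zero_iff.2 fun x _ h => ?_
    have h1 := congrArg Complex.im h
    have h2 : (WTOS_B μ x).im = (μ x.1).im := by
      simp [WTOS_B]
    rw [Complex.sub_im, Complex.sub_im, Complex.one_im, Complex.conj_im, him, h2,
      Complex.zero_im] at h1
    exact ht x.1 (by linarith)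
  · refine Finset.prod_ne_zero_iff.2 fun j _ => Gammaℝ_ne_zero_of_re_pos ?_
    have := WTOS_r_lt (μ j)
    have h2 : (1 / 2 + η + t * I - (μ j - 2 * (WTOS_r (μ j) : ℂ)) : ℂ).re =
        1 / 2 + η - ((μ j).re - 2 * WTOS_r (μ j)) := by
      simp
    rw [h2]
    linarith

/-- the internal system -/
noncomputable def WTOS_S (W : WSys m) : Sys m where
  a := W.a
  N := W.N
  α := W.α
  gam := fun δ => WTOS_g (W.μ δ)
  Z := Finset.univ.image fun p : Fin 2 × Fin m => (W.μ p.1 p.2).im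
  N_pos := W.N_pos
  a_zero := W.a_zero
  a_one := W.a_one
  a_mul := W.a_mul
  euler := W.euler
  rs := W.rs
  gam_cont := by
    intro δ η hη
    rw [continuous_iff_continuousAt]
    intro t
    refine ContinuousAt.comp (g := WTOS_g (W.μ δ)) (f := fun t : ℝ => (1 / 2 + η + t * I : ℂ))
      (WTOS_g_cont _ ?_) (by fun_prop)
    simp only [Complex.add_re, Complex.mul_re, Complex.ofReal_re, Complex.ofReal_im, Complex.I_re,
      Complex.I_im, mul_zero, mul_one, sub_zero, Complex.div_ofNat_re, Complex.one_re, add_zero]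
    linarith
  glow := by
    intro α β hZ
    have h1 : ∀ δ, ∃ g : ℝ, 0 < g ∧ ∀ p ∈ Set.Icc (0 : ℝ) 1 ×ˢ Set.Icc α β,
        g ≤ ‖WTOS_g (W.μ δ) (1 / 2 + (p.1 : ℝ) + (p.2 : ℝ) * I)‖ := by
      intro δ
      refine IsCompact.exists_forall_le' (isCompact_Icc.prod isCompact_Icc) ?_ ?_
      · intro p hp
        apply ContinuousAt.continuousWithinAt
        apply ContinuousAt.norm
        refine ContinuousAt.comp (g := WTOS_g (W.μ δ))
          (f := fun p : ℝ × ℝ => (1 / 2 + p.1 + p.2 * I : ℂ)) (WTOS_g_cont _ ?_) (by fun_prop)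
        have := hp.1.1
        simp only [Complex.add_re, Complex.mul_re, Complex.ofReal_re, Complex.ofReal_im,
          Complex.I_re, Complex.I_im, mul_zero, mul_one, sub_zero, Complex.div_ofNat_re,
          Complex.one_re, add_zero]
        linarith
      · intro p hp
        refine norm_pos_iff.2 (WTOS_g_ne _ hp.1.1 fun j hj => ?_)
        exact hZ p.2 hp.2 (Finset.mem_image.2 ⟨(δ, j), Finset.mem_univ _, hj.symm⟩)
    obtain ⟨g0, hg0, h0⟩ := h1 0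
    obtain ⟨g1, hg1, h1'⟩ := h1 1
    refine ⟨min g0 g1, lt_min hg0 hg1, fun δ η hη t ht => ?_⟩
    fin_cases δ
    · exact (min_le_left _ _).trans (h0 (η, t) ⟨hη, ht⟩)
    · exact (min_le_right _ _).trans (h1' (η, t) ⟨hη, ht⟩)
  fe := by
    intro q hq hqN χ hχ
    obtain ⟨Λ, w, hd, hw, hb, hf, hv⟩ := W.fe q hq hqN χ hχ
    refine ⟨fun s => WTOS_R (W.μ (par χ)) s * Λ s, w, (WTOS_R_diff _).mul hd, hw, ?_, ?_, ?_⟩
    · intro A B
      obtain ⟨C, hC⟩ := hb A B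
      obtain ⟨C', n, hC', hR⟩ := WTOS_R_growth (W.μ (par χ))
      refine ⟨C' * |C|, n, fun s h1 h2 => ?_⟩
      rw [norm_mul]
      calc ‖WTOS_R (W.μ (par χ)) s‖ * ‖Λ s‖ ≤ (C' * (1 + ‖s‖) ^ n) * |C| := by
            have h3 := hR s
            have h4 := (hC s h1 h2).trans (le_abs_self C)
            have h5 := norm_nonneg (Λ s)
            gcongr
        _ = C' * |C| * (1 + ‖s‖) ^ n := by ring
    · intro s
      rw [map_mul, ← WTOS_R_symm]
      show WTOS_R (W.μ (par χ)) s * Λ s = _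
      rw [hf s]
      ring
    · intro s hs
      have h1 := hv s hs
      have h2 := WTOS_key (W.μ (par χ)) hs
      show WTOS_R (W.μ (par χ)) s * Λ s = _
      rw [← h2, mul_assoc, h1]
      ring

theorem WTOS_kers (W : WSys m) (hm : 1 ≤ m) : Nonempty (Kers (WTOS_S W)) := by
  have hne : Nonempty (Fin 2 × Fin m) := ⟨(0, ⟨0, hm⟩)⟩
  obtain ⟨p0, hp0⟩ := Finite.exists_min fun p : Fin 2 × Fin m =>
    1 / 2 - ((W.μ p.1 p.2).re - 2 * WTOS_r (W.μ p.1 p.2))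
  set κ : ℝ := (1 / 2 - ((W.μ p0.1 p0.2).re - 2 * WTOS_r (W.μ p0.1 p0.2))) / 2 with hκ
  have hκ0 : 0 < κ := by
    have := WTOS_r_lt (W.μ p0.1 p0.2)
    rw [hκ]
    linarith
  have hμ : ∀ δ j, (W.μ δ j - 2 * (WTOS_r (W.μ δ j) : ℂ)).re < 1 / 2 - κ := by
    intro δ j
    have h1 := hp0 (δ, j)
    have h2 : (W.μ δ j - 2 * (WTOS_r (W.μ δ j) : ℂ)).re = (W.μ δ j).re - 2 * WTOS_r (W.μ δ j) := by
      simp
    rw [h2]
    simp only at h1
    linarith
  have hker := fun δ => ker_poly_pr hκ0 hm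
    ((Finset.univ : Finset (WTOS_J (W.μ δ))).toList.map fun x => 1 - starRingEnd ℂ (WTOS_B (W.μ δ) x))
    (fun j => W.μ δ j - 2 * (WTOS_r (W.μ δ j) : ℂ)) (hμ δ)
  have hprod : ∀ δ (s : ℂ), (((Finset.univ : Finset (WTOS_J (W.μ δ))).toList.map
      fun x => 1 - starRingEnd ℂ (WTOS_B (W.μ δ) x)).map fun A => A - s).prod =
      ∏ x : WTOS_J (W.μ δ), (1 - starRingEnd ℂ (WTOS_B (W.μ δ) x) - s) := by
    intro δ s
    rw [List.map_map, Finset.prod_map_toList]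
    rfl
  set c : Fin 2 → ℂ := fun δ => ∏ j, (2 * Real.pi : ℂ) ^ WTOS_r (W.μ δ j) with hc
  choose K hK using fun δ => (hker δ).1
  have hg : ∀ δ (s : ℂ), (WTOS_S W).gam δ s = c δ *
      ((((Finset.univ : Finset (WTOS_J (W.μ δ))).toList.map
      fun x => 1 - starRingEnd ℂ (WTOS_B (W.μ δ) x)).map fun A => A - s).prod *
        ∏ j, Gammaℝ (s - (W.μ δ j - 2 * (WTOS_r (W.μ δ j) : ℂ)))) := by
    intro δ s
    rw [hprod]
    rfl
  refine ⟨⟨κ, fun δ u => c δ * K δ u, hκ0, fun δ => ⟨?_, ?_⟩, ?_, ?_⟩⟩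
  · exact continuous_const.mul (hK δ).1.cont
  · intro A hA
    obtain ⟨C, hC⟩ := (hK δ).1.le A hA
    refine ⟨‖c δ‖ * C, fun u => ?_⟩
    rw [norm_mul, mul_assoc]
    exact mul_le_mul_of_nonneg_left (hC u) (norm_nonneg _)
  · intro δ z hz
    rw [hg, ← (hK δ).2 z hz, ← integral_const_mul]
    refine integral_congr_ae (Eventually.of_forall fun u => ?_)
    simp only
    ring
  · intro δ σ hσ
    obtain ⟨C, hC⟩ := (hker δ).2 σ hσ
    refine ⟨‖c δ‖ * C, fun t => ?_⟩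
    rw [hg, norm_mul, mul_div_assoc]
    exact mul_le_mul_of_nonneg_left (hC t) (norm_nonneg _)

/-- WTOS -/
theorem wsys_sys_pr (W : WSys m) (hm : 1 ≤ m) : ∃ (S : Sys m) (R : Fin 2 → ℂ → ℂ),
    Nonempty (Kers S) ∧
    S.a = W.a ∧ S.N = W.N ∧ (∀ δ, Differentiable ℂ (R δ)) ∧
    (∀ (δ : Fin 2) (t : ℝ), analyticOrderAt (R δ) (1 / 2 + t * I) ≠ ⊤ ∧
      Even (analyticOrderNatAt (R δ) (1 / 2 + t * I))) ∧
    ∀ (q : ℕ) (χ : DirichletCharacter ℂ q) (Λ : ℂ → ℂ), IsLamW W χ Λ →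
      IsLam S χ (fun s => R (par χ) s * Λ s) := by
  refine ⟨WTOS_S W, fun δ => WTOS_R (W.μ δ), WTOS_kers W hm, rfl, rfl, fun δ => WTOS_R_diff _,
    fun δ t => WTOS_R_order _ t, ?_⟩
  rintro q χ Λ ⟨hd, hv⟩
  refine ⟨(WTOS_R_diff _).mul hd, fun s hs => ?_⟩
  have h1 := hv s hs
  have h2 := WTOS_key (W.μ (par χ)) hs
  show WTOS_R (W.μ (par χ)) s * Λ s = ((W.N : ℂ) * (q : ℂ) ^ m) ^ (s / 2) *
    WTOS_g (W.μ (par χ)) s * LSeries (fun n => W.a n * χ n) s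
  rw [← h2, mul_assoc, h1]
  ring

end Pool.Agent.G5
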