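import Pool.Agent.Lib_helper44.G5.Defs
import Pool.Agent.Lib_helper44.G5Z.Defs

namespace Pool.Agent.G5

open Complex MeasureTheory Filter Topology

open Pool.Agent.G4

variable {m : ℕ}

/-- ZU: uniqueness -/
theorem lamw_unique_pr (W : WSys m) {q : ℕ} {χ : DirichletCharacter ℂ q} {Λ Λ' : ℂ → ℂ}
    (h : IsLamW W χ Λ) (h' : IsLamW W χ Λ') : Λ = Λ' := by
  obtain ⟨B, hB1, hB⟩ : ∃ B : ℝ, 1 < B ∧ ∀ j, (W.μ (par χ) j).re < B := by
    refine ⟨1 + (1 + ∑ j, |(W.μ (par χ) j).re|), ?_, fun j => ?_⟩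
    · have : 0 ≤ ∑ j, |(W.μ (par χ) j).re| := Finset.sum_nonneg fun _ _ => abs_nonneg _
      linarith
    · have h1 : |(W.μ (par χ) j).re| ≤ ∑ j, |(W.μ (par χ) j).re| :=
        Finset.single_le_sum (f := fun j => |(W.μ (par χ) j).re|) (fun _ _ => abs_nonneg _)
          (Finset.mem_univ j)
      have h2 := le_abs_self (W.μ (par χ) j).re
      linarith
  have key : ∀ s : ℂ, B < s.re → Λ s = Λ' s := by
    intro s hs
    have h1 := h.2 s (hB1.trans hs)
    have h2 := h'.2 s (hB1.trans hs)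
    have h3 : (∏ j, (Gammaℝ (s - W.μ (par χ) j))⁻¹) ≠ 0 := by
      refine Finset.prod_ne_zero_iff.2 fun j _ => inv_ne_zero ?_
      apply Gammaℝ_ne_zero_of_re_pos
      rw [sub_re]
      linarith [hB j]
    exact mul_left_cancel₀ h3 (h1.trans h2.symm)
  have hz : B < ((B + 1 : ℝ) : ℂ).re := by
    rw [ofReal_re]; linarith
  have hev : Λ =ᶠ[𝓝 ((B + 1 : ℝ) : ℂ)] Λ' := by
    have hopen : IsOpen {s : ℂ | B < s.re} := isOpen_lt continuous_const continuous_re
    filter_upwards [hopen.mem_nhds hz] with s hs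
    exact key s hs
  have ha : AnalyticOnNhd ℂ Λ Set.univ := fun z _ => h.1.analyticAt z
  have ha' : AnalyticOnNhd ℂ Λ' Set.univ := fun z _ => h'.1.analyticAt z
  exact ha.eq_of_eventuallyEq ha' hev

end Pool.Agent.G5
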